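import Mathlib
import Pool.Agent.NestMSS.Defs
set_option autoImplicit false
open MvPolynomial

namespace NestConn.MSS




section Pick
open Filter Topology

theorem pk_dirs (k : ℕ) (hk : 2 ≤ k) : ∃ u v : ℂ, ‖u‖ = 1 ∧ 0 < u.im ∧ u ^ k = Complex.I ∧
    ‖v‖ = 1 ∧ 0 < v.im ∧ v ^ k = -Complex.I := by
  have hk' : (0:ℝ) < k := by positivity
  have hk2 : (2:ℝ) ≤ k := by exact_mod_cast hk
  have hkc : (k:ℂ) ≠ 0 := by exact_mod_cast hk'.ne'
  have hpi := Real.pi_pos
  refine ⟨Complex.exp ((Real.pi / (2 * k) : ℝ) * Complex.I),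
    Complex.exp ((3 * Real.pi / (2 * k) : ℝ) * Complex.I), Complex.norm_exp_ofReal_mul_I _, ?_, ?_,
    Complex.norm_exp_ofReal_mul_I _, ?_, ?_⟩
  · rw [Complex.exp_ofReal_mul_I_im]
    apply Real.sin_pos_of_pos_of_lt_pi (by positivity)
    rw [div_lt_iff₀ (by positivity)]
    nlinarith
  · rw [← Complex.exp_nat_mul]
    have : (k:ℂ) * (((Real.pi / (2 * k) : ℝ) : ℂ) * Complex.I) = ((Real.pi / 2 : ℝ) : ℂ) * Complex.I := by
      push_cast
      field_simp
    rw [this, Complex.exp_mul_I, ← Complex.ofReal_cos, ← Complex.ofReal_sin, Real.cos_pi_div_two,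
      Real.sin_pi_div_two]
    simp
  · rw [Complex.exp_ofReal_mul_I_im]
    apply Real.sin_pos_of_pos_of_lt_pi (by positivity)
    rw [div_lt_iff₀ (by positivity)]
    nlinarith
  · rw [← Complex.exp_nat_mul]
    have : (k:ℂ) * (((3 * Real.pi / (2 * k) : ℝ) : ℂ) * Complex.I)
        = ((Real.pi / 2 + Real.pi : ℝ) : ℂ) * Complex.I := by
      push_cast
      field_simp
      ring
    rw [this, Complex.exp_mul_I, ← Complex.ofReal_cos, ← Complex.ofReal_sin, Real.cos_add_pi,
      Real.sin_add_pi, Real.cos_pi_div_two, Real.sin_pi_div_two]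
    simp

theorem pk_local (A B Cc : Polynomial ℂ) (z0 u : ℂ) (m : ℕ)
    (hA : A = (Polynomial.X - Polynomial.C z0) ^ m * Cc)
    (h : ∀ᶠ r : ℝ in 𝓝[>] 0, ((B.eval (z0 + r * u)) * (starRingEnd ℂ) (A.eval (z0 + r * u))).im ≤ 0) :
    ((starRingEnd ℂ) u ^ m * (B.eval z0 * (starRingEnd ℂ) (Cc.eval z0))).im ≤ 0 := by
  have hcont : Continuous fun r : ℝ => ((starRingEnd ℂ) u ^ m *
      (B.eval (z0 + r * u) * (starRingEnd ℂ) (Cc.eval (z0 + r * u)))).im := by
    apply Complex.continuous_im.comp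
    refine continuous_const.mul ((B.continuous.comp (by fun_prop)).mul
      (Complex.continuous_conj.comp (Cc.continuous.comp (by fun_prop))))
  have ht := (hcont.tendsto 0).mono_left (nhdsWithin_le_nhds (s := Set.Ioi 0))
  simp only [Complex.ofReal_zero, zero_mul, add_zero] at ht
  refine le_of_tendsto ht ?_
  filter_upwards [h, self_mem_nhdsWithin] with r hr hr0
  have hr0 : (0:ℝ) < r := hr0
  rw [hA] at hr
  simp only [Polynomial.eval_mul, Polynomial.eval_pow, Polynomial.eval_sub, Polynomial.eval_X,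
    Polynomial.eval_C, add_sub_cancel_left, map_mul, map_pow, Complex.conj_ofReal] at hr
  have e : (Polynomial.eval (z0 + ↑r * u) B * (((r:ℂ) * (starRingEnd ℂ) u) ^ m * (starRingEnd ℂ) (Polynomial.eval (z0 + ↑r * u) Cc)))
      = ((r ^ m : ℝ) : ℂ) * ((starRingEnd ℂ) u ^ m *
      (B.eval (z0 + r * u) * (starRingEnd ℂ) (Cc.eval (z0 + r * u)))) := by
    push_cast
    ring
  rw [e, Complex.im_ofReal_mul] at hr
  exact nonpos_of_mul_nonpos_right hr (pow_pos hr0 m)

theorem pk_inf (a b : Polynomial ℝ) (u : ℂ) (hu : ‖u‖ = 1)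
    (h : ∀ r : ℝ, 0 < r → ((Polynomial.aeval (r * u) b) *
      (starRingEnd ℂ) (Polynomial.aeval (r * u) a)).im ≤ 0) :
    (u ^ b.natDegree * (starRingEnd ℂ) u ^ a.natDegree).im * (b.leadingCoeff * a.leadingCoeff) ≤ 0 := by
  have hu0 : u ≠ 0 := by
    intro h0; rw [h0] at hu; simp at hu
  have huu : u * (starRingEnd ℂ) u = 1 := by
    rw [Complex.mul_conj, Complex.normSq_eq_norm_sq, hu]; simp
  have key : ∀ p : Polynomial ℝ, ∀ s : ℝ, 0 < s → Polynomial.aeval ((s⁻¹ : ℝ) * u) p
      = Polynomial.aeval ((s:ℂ) * (starRingEnd ℂ) u) p.reverse * ((s⁻¹ : ℝ) * u) ^ p.natDegree := by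
    intro p s hs
    have hs0 : (s:ℂ) ≠ 0 := by exact_mod_cast hs.ne'
    have hx : (((s⁻¹ : ℝ) : ℂ) * u) ≠ 0 := by
      push_cast
      exact mul_ne_zero (inv_ne_zero hs0) hu0
    let _ := invertibleOfNonzero hx
    have := Polynomial.eval₂_reverse_mul_pow (algebraMap ℝ ℂ) (((s⁻¹ : ℝ) : ℂ) * u) p
    rw [Polynomial.aeval_def, Polynomial.aeval_def, ← this]
    congr 2
    rw [invOf_eq_inv, mul_inv]
    push_cast
    rw [inv_inv, inv_eq_of_mul_eq_one_right huu]
  have hcont : Continuous fun s : ℝ => ((u ^ b.natDegree * (starRingEnd ℂ) u ^ a.natDegree) *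
      (Polynomial.aeval ((s:ℂ) * (starRingEnd ℂ) u) b.reverse *
       (starRingEnd ℂ) (Polynomial.aeval ((s:ℂ) * (starRingEnd ℂ) u) a.reverse))).im := by
    apply Complex.continuous_im.comp
    refine continuous_const.mul (((Polynomial.continuous_aeval _).comp (by fun_prop)).mul
      (Complex.continuous_conj.comp ((Polynomial.continuous_aeval _).comp (by fun_prop))))
  have ht := (hcont.tendsto 0).mono_left (nhdsWithin_le_nhds (s := Set.Ioi 0))
  have hz : ∀ p : Polynomial ℝ, Polynomial.aeval (0:ℂ) p.reverse = ((p.leadingCoeff : ℝ) : ℂ) := by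
    intro p
    rw [Polynomial.aeval_def, Polynomial.eval₂_at_zero, Polynomial.coeff_zero_reverse]
    rfl
  simp only [Complex.ofReal_zero, zero_mul, hz, Complex.conj_ofReal] at ht
  have hle := le_of_tendsto ht (b := 0) (by
    filter_upwards [self_mem_nhdsWithin] with s hs
    have hs : (0:ℝ) < s := hs
    have h1 := h s⁻¹ (inv_pos.2 hs)
    rw [key b s hs, key a s hs] at h1
    have e : (Polynomial.aeval ((s:ℂ) * (starRingEnd ℂ) u) b.reverse * ((s⁻¹ : ℝ) * u) ^ b.natDegree) *
        (starRingEnd ℂ) (Polynomial.aeval ((s:ℂ) * (starRingEnd ℂ) u) a.reverse * ((s⁻¹ : ℝ) * u) ^ a.natDegree)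
        = ((s⁻¹ ^ (b.natDegree + a.natDegree) : ℝ) : ℂ) *
        ((u ^ b.natDegree * (starRingEnd ℂ) u ^ a.natDegree) *
      (Polynomial.aeval ((s:ℂ) * (starRingEnd ℂ) u) b.reverse *
       (starRingEnd ℂ) (Polynomial.aeval ((s:ℂ) * (starRingEnd ℂ) u) a.reverse))) := by
      simp only [map_mul, map_pow, Complex.conj_ofReal]
      push_cast
      ring
    rw [e, Complex.im_ofReal_mul] at h1
    exact nonpos_of_mul_nonpos_right h1 (pow_pos (inv_pos.2 hs) _))
  rw [← Complex.ofReal_mul, Complex.im_mul_ofReal] at hle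
  exact hle

theorem pk_coprime_ne (a b : Polynomial ℝ) (hco : IsCoprime a b) (z0 : ℂ)
    (hz : Polynomial.aeval z0 a = 0) : Polynomial.aeval z0 b ≠ 0 := by
  obtain ⟨u, v, huv⟩ := hco
  intro hb
  have := congrArg (Polynomial.aeval z0) huv
  simp [hz, hb] at this

theorem pk_complex_root (a b : Polynomial ℝ) (hco : IsCoprime a b) (ha0 : a ≠ 0)
    (hP : ∀ t : ℂ, 0 < t.im → ((Polynomial.aeval t b) *
      (starRingEnd ℂ) (Polynomial.aeval t a)).im ≤ 0)
    (z0 : ℂ) (hz : Polynomial.aeval z0 a = 0) : z0.im ≤ 0 := by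
  by_contra hcon
  push Not at hcon
  have hinj : Function.Injective (algebraMap ℝ ℂ) := (algebraMap ℝ ℂ).injective
  have hA : a.map (algebraMap ℝ ℂ) ≠ 0 := (Polynomial.map_ne_zero_iff hinj).2 ha0
  obtain ⟨Cc, hC, hnd⟩ := Polynomial.exists_eq_pow_rootMultiplicity_mul_and_not_dvd
    (a.map (algebraMap ℝ ℂ)) hA z0
  have hA0 : (a.map (algebraMap ℝ ℂ)).IsRoot z0 := by
    rw [Polynomial.IsRoot, Polynomial.eval_map_algebraMap]; exact hz
  have hm : 0 < Polynomial.rootMultiplicity z0 (a.map (algebraMap ℝ ℂ)) :=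
    (Polynomial.rootMultiplicity_pos hA).2 hA0
  have hCc : Cc.eval z0 ≠ 0 := fun h => hnd (Polynomial.dvd_iff_isRoot.2 h)
  have hB : (b.map (algebraMap ℝ ℂ)).eval z0 ≠ 0 := by
    rw [Polynomial.eval_map_algebraMap]; exact pk_coprime_ne a b hco z0 hz
  obtain ⟨v, hv⟩ := IsAlgClosed.exists_pow_nat_eq
    (Complex.I * (starRingEnd ℂ) ((b.map (algebraMap ℝ ℂ)).eval z0 * (starRingEnd ℂ) (Cc.eval z0))) hm
  have h1 := pk_local (a.map (algebraMap ℝ ℂ)) (b.map (algebraMap ℝ ℂ)) Cc z0 ((starRingEnd ℂ) v) _ hC (by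
    have hc : Continuous fun r : ℝ => (z0 + r * (starRingEnd ℂ) v).im :=
      Complex.continuous_im.comp (by fun_prop)
    have h2 : ∀ᶠ r : ℝ in 𝓝 0, 0 < (z0 + r * (starRingEnd ℂ) v).im := by
      apply hc.tendsto 0 |>.eventually_const_lt
      simpa using hcon
    filter_upwards [h2.filter_mono nhdsWithin_le_nhds] with r hr
    rw [Polynomial.eval_map_algebraMap, Polynomial.eval_map_algebraMap]
    exact hP _ hr)
  rw [Complex.conj_conj, hv, mul_assoc, ← Complex.normSq_eq_conj_mul_self, Complex.im_mul_ofReal,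
    Complex.I_im, one_mul] at h1
  have h3 : 0 < Complex.normSq ((b.map (algebraMap ℝ ℂ)).eval z0 * (starRingEnd ℂ) (Cc.eval z0)) := by
    rw [Complex.normSq_pos]
    exact mul_ne_zero hB ((map_ne_zero _).2 hCc)
  linarith

theorem pk_real (a b : Polynomial ℝ) (hco : IsCoprime a b) (ha0 : a ≠ 0)
    (hP : ∀ t : ℂ, 0 < t.im → ((Polynomial.aeval t b) *
      (starRingEnd ℂ) (Polynomial.aeval t a)).im ≤ 0)
    (z0 : ℂ) (hz : Polynomial.aeval z0 a = 0) : z0.im = 0 := by
  apply le_antisymm (pk_complex_root a b hco ha0 hP z0 hz)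
  have := pk_complex_root a b hco ha0 hP ((starRingEnd ℂ) z0) (by
    rw [Polynomial.aeval_conj, hz, map_zero])
  rw [Complex.conj_im] at this
  linarith

theorem pk_simple (a b : Polynomial ℝ) (hco : IsCoprime a b) (ha0 : a ≠ 0)
    (hP : ∀ t : ℂ, 0 < t.im → ((Polynomial.aeval t b) *
      (starRingEnd ℂ) (Polynomial.aeval t a)).im ≤ 0)
    (y : ℝ) (hy : a.eval y = 0) : 0 < b.eval y * a.derivative.eval y := by
  obtain ⟨c, hc, hnd⟩ := Polynomial.exists_eq_pow_rootMultiplicity_mul_and_not_dvd a ha0 y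
  have hm : 0 < Polynomial.rootMultiplicity y a := (Polynomial.rootMultiplicity_pos ha0).2 hy
  have hc0 : c.eval y ≠ 0 := fun h => hnd (Polynomial.dvd_iff_isRoot.2 h)
  set m := Polynomial.rootMultiplicity y a with hmdef
  have hb0 : b.eval y ≠ 0 := by
    intro h
    obtain ⟨u, v, huv⟩ := hco
    have := congrArg (Polynomial.eval y) huv
    simp [hy, h] at this
  have hA : a.map (algebraMap ℝ ℂ) = (Polynomial.X - Polynomial.C (y:ℂ)) ^ m * c.map (algebraMap ℝ ℂ) := by
    conv_lhs => rw [hc]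
    simp
  have key : ∀ u : ℂ, 0 < u.im → ((starRingEnd ℂ) u ^ m).im * (b.eval y * c.eval y) ≤ 0 := by
    intro u hu
    have h1 := pk_local (a.map (algebraMap ℝ ℂ)) (b.map (algebraMap ℝ ℂ)) (c.map (algebraMap ℝ ℂ))
      (y:ℂ) u m hA (by
        filter_upwards [self_mem_nhdsWithin] with r hr
        have hr : (0:ℝ) < r := hr
        rw [Polynomial.eval_map_algebraMap, Polynomial.eval_map_algebraMap]
        apply hP
        simp
        positivity)
    have e1 : (b.map (algebraMap ℝ ℂ)).eval (y:ℂ) = ((b.eval y : ℝ) : ℂ) := by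
      rw [Polynomial.eval_map_algebraMap]
      exact Polynomial.aeval_algebraMap_apply ℂ y b
    have e2 : (c.map (algebraMap ℝ ℂ)).eval (y:ℂ) = ((c.eval y : ℝ) : ℂ) := by
      rw [Polynomial.eval_map_algebraMap]
      exact Polynomial.aeval_algebraMap_apply ℂ y c
    rw [e1, e2, Complex.conj_ofReal, ← Complex.ofReal_mul, Complex.im_mul_ofReal] at h1
    exact h1
  have hbc : b.eval y * c.eval y ≠ 0 := mul_ne_zero hb0 hc0
  have hm1 : m = 1 := by
    by_contra hne
    have hm2 : 2 ≤ m := by omega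
    obtain ⟨u, v, -, hu, huk, -, hv, hvk⟩ := pk_dirs m hm2
    have h1 := key u hu
    have h2 := key v hv
    rw [← map_pow, huk] at h1
    rw [← map_pow, hvk] at h2
    simp at h1 h2
    exact hbc (le_antisymm h2 h1)
  have h1 := key Complex.I (by simp)
  rw [hm1] at h1
  simp at h1
  have h2 : a.derivative.eval y = c.eval y := by
    rw [hc, hm1]
    simp
  rw [h2]
  exact lt_of_le_of_ne h1 (Ne.symm hbc)

theorem pk_natDegree_div (p q : Polynomial ℝ) (hq : q ≠ 0) :
    (p / q).natDegree = p.natDegree - q.natDegree := by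
  rw [Polynomial.div_def, Polynomial.natDegree_C_mul
    (inv_ne_zero (Polynomial.leadingCoeff_ne_zero.2 hq)),
    Polynomial.natDegree_divByMonic _ (Polynomial.monic_mul_leadingCoeff_inv hq),
    Polynomial.natDegree_mul_leadingCoeff_inv _ hq]

theorem pk_quot (a b : Polynomial ℝ) (ha0 : a ≠ 0)
    (hP : ∀ t : ℂ, 0 < t.im → ((Polynomial.aeval t b) *
      (starRingEnd ℂ) (Polynomial.aeval t a)).im ≤ 0) :
    (b / a).natDegree ≤ 1 ∧ (b / a).coeff 1 ≤ 0 := by
  by_cases hb0 : b = 0
  · rw [hb0]; simp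
  have hab : b.leadingCoeff * a.leadingCoeff ≠ 0 :=
    mul_ne_zero (Polynomial.leadingCoeff_ne_zero.2 hb0) (Polynomial.leadingCoeff_ne_zero.2 ha0)
  have key : ∀ u : ℂ, ‖u‖ = 1 → 0 < u.im →
      (u ^ b.natDegree * (starRingEnd ℂ) u ^ a.natDegree).im * (b.leadingCoeff * a.leadingCoeff) ≤ 0 := by
    intro u hu hui
    apply pk_inf a b u hu
    intro r hr
    apply hP
    simp
    positivity
  have hsimp : ∀ (u : ℂ) (k : ℕ), ‖u‖ = 1 → b.natDegree = a.natDegree + k →
      u ^ b.natDegree * (starRingEnd ℂ) u ^ a.natDegree = u ^ k := by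
    intro u k hu hk
    have huu : u * (starRingEnd ℂ) u = 1 := by
      rw [Complex.mul_conj, Complex.normSq_eq_norm_sq, hu]; simp
    rw [hk, pow_add]
    calc u ^ a.natDegree * u ^ k * (starRingEnd ℂ) u ^ a.natDegree
        = (u * (starRingEnd ℂ) u) ^ a.natDegree * u ^ k := by rw [mul_pow]; ring
      _ = u ^ k := by rw [huu]; simp
  have hdeg : b.natDegree ≤ a.natDegree + 1 := by
    by_contra hcon
    push Not at hcon
    obtain ⟨k, hk⟩ : ∃ k, b.natDegree = a.natDegree + k := ⟨b.natDegree - a.natDegree, by omega⟩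
    have hk2 : 2 ≤ k := by omega
    obtain ⟨u, v, hu1, hu, huk, hv1, hv, hvk⟩ := pk_dirs k hk2
    have h1 := key u hu1 hu
    have h2 := key v hv1 hv
    rw [hsimp u k hu1 hk, huk] at h1
    rw [hsimp v k hv1 hk, hvk] at h2
    simp only [Complex.I_im, one_mul, Complex.neg_im, neg_mul] at h1 h2
    exact hab (le_antisymm h1 (by linarith))
  have hnd := pk_natDegree_div b a ha0
  refine ⟨by rw [hnd]; omega, ?_⟩
  rcases Nat.lt_or_ge a.natDegree b.natDegree with hlt | hle
  · have hk : b.natDegree = a.natDegree + 1 := by omega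
    have h1 := key Complex.I (by simp) (by simp)
    rw [hsimp Complex.I 1 (by simp) hk] at h1
    simp only [pow_one, Complex.I_im, one_mul] at h1
    have h2 : (b / a).coeff 1 = b.leadingCoeff / a.leadingCoeff := by
      rw [← Polynomial.leadingCoeff_div (Polynomial.degree_lt_degree hlt |>.le), Polynomial.leadingCoeff, hnd, hk]
      simp
    rw [h2]
    rw [div_nonpos_iff]
    rcases lt_or_gt_of_ne (Polynomial.leadingCoeff_ne_zero.2 ha0) with h | h
    · left
      exact ⟨nonneg_of_mul_nonpos_left h1 h, h.le⟩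
    · right
      exact ⟨nonpos_of_mul_nonpos_left h1 h, h.le⟩
  · rw [Polynomial.coeff_eq_zero_of_natDegree_lt]
    rw [hnd]; omega

theorem pk_frac (a b : Polynomial ℝ) (hco : IsCoprime a b)
    (hP : ∀ t : ℂ, 0 < t.im → ((Polynomial.aeval t b) *
      (starRingEnd ℂ) (Polynomial.aeval t a)).im ≤ 0)
    (ha : ∀ t : ℝ, 0 ≤ t → a.eval t ≠ 0) :
    ∃ (s : Finset ℝ) (ρ : ℝ → ℝ) (q1 q0 : ℝ), q1 ≤ 0 ∧ (∀ y ∈ s, y < 0 ∧ 0 < ρ y) ∧
      ∀ t : ℝ, 0 ≤ t → b.eval t / a.eval t = q1 * t + q0 + ∑ y ∈ s, ρ y / (t - y) := by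
  classical
  have ha0 : a ≠ 0 := by
    rintro rfl
    exact ha 0 le_rfl (by simp)
  have hinj : Function.Injective (algebraMap ℝ ℂ) := (algebraMap ℝ ℂ).injective
  have hAm : a.map (algebraMap ℝ ℂ) ≠ 0 := (Polynomial.map_ne_zero_iff hinj).2 ha0
  have hsplit : a.Splits := by
    apply Polynomial.Splits.of_splits_map (algebraMap ℝ ℂ) (IsAlgClosed.splits _)
    intro z hz
    rw [Polynomial.mem_roots hAm, Polynomial.IsRoot, Polynomial.eval_map_algebraMap] at hz
    have := pk_real a b hco ha0 hP z hz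
    exact ⟨z.re, by apply Complex.ext <;> simp [this]⟩
  have hnodup : a.roots.Nodup := by
    rw [Multiset.nodup_iff_count_le_one]
    intro y
    rw [Polynomial.count_roots]
    by_contra hcon
    push Not at hcon
    rw [Polynomial.one_lt_rootMultiplicity_iff_isRoot ha0] at hcon
    have := pk_simple a b hco ha0 hP y hcon.1
    rw [hcon.2] at this
    simp at this
  have hlc : a.leadingCoeff ≠ 0 := Polynomial.leadingCoeff_ne_zero.2 ha0
  have hnod : a = Polynomial.C a.leadingCoeff * Lagrange.nodal a.roots.toFinset id := by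
    conv_lhs => rw [hsplit.eq_prod_roots]
    congr 1
    rw [Lagrange.nodal_eq, Finset.prod, Multiset.toFinset_val, Multiset.dedup_eq_self.2 hnodup]
    rfl
  have hmem : ∀ y ∈ a.roots.toFinset, a.eval y = 0 := by
    intro y hy
    rw [Multiset.mem_toFinset, Polynomial.mem_roots ha0] at hy
    exact hy
  obtain ⟨hQ1, hQ2⟩ := pk_quot a b ha0 hP
  have hdiv : b = a * (b / a) + b % a := (EuclideanDomain.div_add_mod b a).symm
  have hR : (b % a) = Lagrange.interpolate a.roots.toFinset id (fun i => (b % a).eval (id i)) := by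
    apply Lagrange.eq_interpolate
    · exact Function.injective_id.injOn
    · refine lt_of_lt_of_le (Polynomial.degree_mod_lt b ha0) ?_
      conv_lhs => rw [hnod]
      rw [Polynomial.degree_C_mul hlc, Lagrange.degree_nodal]
  refine ⟨a.roots.toFinset, fun y => b.eval y / a.derivative.eval y, (b / a).coeff 1,
    (b / a).coeff 0, hQ2, ?_, ?_⟩
  · intro y hy
    have h1 := hmem y hy
    have h2 := pk_simple a b hco ha0 hP y h1
    refine ⟨?_, ?_⟩
    · by_contra hcon
      push Not at hcon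
      exact ha y hcon h1
    · rcases pos_and_pos_or_neg_and_neg_of_mul_pos h2 with ⟨h3, h4⟩ | ⟨h3, h4⟩
      · exact div_pos h3 h4
      · exact div_pos_of_neg_of_neg h3 h4
  · intro t ht
    have hat := ha t ht
    have hne : ∀ y ∈ a.roots.toFinset, t ≠ id y := by
      rintro y hy rfl
      exact hat (hmem _ hy)
    have hRt : (b % a).eval t = (Lagrange.nodal a.roots.toFinset id).eval t *
        ∑ i ∈ a.roots.toFinset, Lagrange.nodalWeight a.roots.toFinset id i * (t - id i)⁻¹ *
          (b % a).eval (id i) := by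
      conv_lhs => rw [hR]
      exact Lagrange.eval_interpolate_not_at_node _ hne
    have hat' : a.eval t = a.leadingCoeff * (Lagrange.nodal a.roots.toFinset id).eval t := by
      conv_lhs => rw [hnod]
      simp
    have hnt : (Lagrange.nodal a.roots.toFinset id).eval t ≠ 0 := by
      intro h
      rw [h, mul_zero] at hat'
      exact hat hat'
    have hbt : b.eval t = a.eval t * ((b / a).coeff 1 * t + (b / a).coeff 0) + (b % a).eval t := by
      conv_lhs => rw [hdiv]
      rw [Polynomial.eval_add, Polynomial.eval_mul]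
      conv_lhs => rw [Polynomial.eq_X_add_C_of_natDegree_le_one hQ1]
      simp
    rw [hbt, add_div, mul_div_cancel_left₀ _ hat]
    congr 1
    rw [hRt, hat', mul_comm (a.leadingCoeff), mul_div_mul_left _ _ hnt, Finset.sum_div]
    apply Finset.sum_congr rfl
    intro y hy
    have h1 := hmem y hy
    have hder : a.derivative.eval y = a.leadingCoeff * (Lagrange.nodal a.roots.toFinset id).derivative.eval y := by
      conv_lhs => rw [hnod]
      simp
    have hby : b.eval y = (b % a).eval y := by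
      conv_lhs => rw [hdiv]
      simp [h1]
    have hw := Lagrange.nodalWeight_eq_eval_derivative_nodal (v := (id : ℝ → ℝ)) hy
    simp only [id] at hw ⊢
    have hder0 : a.derivative.eval y ≠ 0 := by
      intro h
      have := pk_simple a b hco ha0 hP y h1
      rw [h] at this
      simp at this
    rw [hw, hder, hby]
    have hd0 : Polynomial.eval y (Polynomial.derivative (Lagrange.nodal a.roots.toFinset id)) ≠ 0 := by
      intro h
      rw [hder, h] at hder0
      simp at hder0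
    have hty : t - y ≠ 0 := sub_ne_zero.2 (hne y hy)
    change (Polynomial.eval y (Polynomial.derivative (Lagrange.nodal a.roots.toFinset id)))⁻¹ * _ * _ / _ = _
    field_simp

theorem pk_gcd (a b : Polynomial ℝ) (ha0 : a ≠ 0) : ∃ g a1 b1 : Polynomial ℝ, a = g * a1 ∧
    b = g * b1 ∧ IsCoprime a1 b1 := by
  classical
  obtain ⟨a1, ha1⟩ := EuclideanDomain.gcd_dvd_left a b
  obtain ⟨b1, hb1⟩ := EuclideanDomain.gcd_dvd_right a b
  have hg0 : EuclideanDomain.gcd a b ≠ 0 := by
    intro h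
    rw [h, zero_mul] at ha1
    exact ha0 ha1
  refine ⟨EuclideanDomain.gcd a b, a1, b1, ha1, hb1, ?_⟩
  have h := EuclideanDomain.gcd_eq_gcd_ab a b
  refine ⟨EuclideanDomain.gcdA a b, EuclideanDomain.gcdB a b, ?_⟩
  apply mul_left_cancel₀ hg0
  rw [mul_one]
  calc EuclideanDomain.gcd a b * (EuclideanDomain.gcdA a b * a1 + EuclideanDomain.gcdB a b * b1)
      = (EuclideanDomain.gcd a b * a1) * EuclideanDomain.gcdA a b
        + (EuclideanDomain.gcd a b * b1) * EuclideanDomain.gcdB a b := by ring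
    _ = a * EuclideanDomain.gcdA a b + b * EuclideanDomain.gcdB a b := by rw [← ha1, ← hb1]
    _ = EuclideanDomain.gcd a b := h.symm

theorem pk_frac' (a b : Polynomial ℝ)
    (hP : ∀ t : ℂ, 0 < t.im → ((Polynomial.aeval t b) *
      (starRingEnd ℂ) (Polynomial.aeval t a)).im ≤ 0)
    (ha : ∀ t : ℝ, 0 ≤ t → a.eval t ≠ 0) :
    ∃ (s : Finset ℝ) (ρ : ℝ → ℝ) (q1 q0 : ℝ), q1 ≤ 0 ∧ (∀ y ∈ s, y < 0 ∧ 0 < ρ y) ∧
      ∀ t : ℝ, 0 ≤ t → b.eval t / a.eval t = q1 * t + q0 + ∑ y ∈ s, ρ y / (t - y) := by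
  have ha0 : a ≠ 0 := by
    rintro rfl
    exact ha 0 le_rfl (by simp)
  obtain ⟨g, a1, b1, hga, hgb, hco⟩ := pk_gcd a b ha0
  have hg0 : g ≠ 0 := by
    rintro rfl
    rw [zero_mul] at hga
    exact ha0 hga
  have hP' : ∀ t : ℂ, 0 < t.im → Polynomial.aeval t g ≠ 0 → ((Polynomial.aeval t b1) *
      (starRingEnd ℂ) (Polynomial.aeval t a1)).im ≤ 0 := by
    intro t ht hgt
    have h1 := hP t ht
    rw [hga, hgb, map_mul, map_mul, map_mul] at h1
    have e : (Polynomial.aeval t g) * (Polynomial.aeval t b1) * ((starRingEnd ℂ) (Polynomial.aeval t g) * (starRingEnd ℂ) (Polynomial.aeval t a1))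
        = (Complex.normSq (Polynomial.aeval t g) : ℂ) * ((Polynomial.aeval t b1) * (starRingEnd ℂ) (Polynomial.aeval t a1)) := by
      rw [Complex.normSq_eq_conj_mul_self]; ring
    rw [e, Complex.im_ofReal_mul] at h1
    exact nonpos_of_mul_nonpos_right h1 (Complex.normSq_pos.2 hgt)
  have hP1 : ∀ t : ℂ, 0 < t.im → ((Polynomial.aeval t b1) *
      (starRingEnd ℂ) (Polynomial.aeval t a1)).im ≤ 0 := by
    intro t ht
    have hcont : Continuous fun r : ℝ => ((Polynomial.aeval (t + r * Complex.I) b1) *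
      (starRingEnd ℂ) (Polynomial.aeval (t + r * Complex.I) a1)).im := by
      apply Complex.continuous_im.comp
      exact ((Polynomial.continuous_aeval _).comp (by fun_prop)).mul
        (Complex.continuous_conj.comp ((Polynomial.continuous_aeval _).comp (by fun_prop)))
    have h1 := (hcont.tendsto 0).mono_left (nhdsWithin_le_nhds (s := Set.Ioi 0))
    simp only [Complex.ofReal_zero, zero_mul, add_zero] at h1
    refine le_of_tendsto h1 ?_
    have hfin : {z : ℂ | Polynomial.aeval z g = 0}.Finite := by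
      have hinj : Function.Injective (algebraMap ℝ ℂ) := (algebraMap ℝ ℂ).injective
      have hGm : g.map (algebraMap ℝ ℂ) ≠ 0 := (Polynomial.map_ne_zero_iff hinj).2 hg0
      refine ((g.map (algebraMap ℝ ℂ)).roots.toFinset.finite_toSet).subset ?_
      intro z hz
      simp only [Finset.mem_coe, Multiset.mem_toFinset]
      rw [Polynomial.mem_roots hGm, Polynomial.IsRoot, Polynomial.eval_map_algebraMap]
      exact hz
    have hinj : Set.InjOn (fun r : ℝ => t + r * Complex.I)
        ((fun r : ℝ => t + r * Complex.I) ⁻¹' {z : ℂ | Polynomial.aeval z g = 0}) := by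
      intro x _ y _ hxy
      simp only [add_right_inj, mul_eq_mul_right_iff, Complex.ofReal_inj, Complex.I_ne_zero, or_false] at hxy
      exact hxy
    have hfin2 := hfin.preimage hinj
    have hcl := (hfin2.subset (Set.sdiff_subset (t := {0}))).isClosed
    have hop := hcl.isOpen_compl.mem_nhds (x := (0:ℝ)) (by simp)
    filter_upwards [nhdsWithin_le_nhds hop, self_mem_nhdsWithin] with r hr1 hr2
    have hr2 : (0:ℝ) < r := hr2
    apply hP'
    · simp
      linarith
    · intro hgr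
      apply hr1
      exact ⟨hgr, hr2.ne'⟩
  have hga' : ∀ t : ℝ, 0 ≤ t → g.eval t ≠ 0 ∧ a1.eval t ≠ 0 := by
    intro t ht
    have := ha t ht
    rw [hga, Polynomial.eval_mul] at this
    exact ⟨left_ne_zero_of_mul this, right_ne_zero_of_mul this⟩
  obtain ⟨s, ρ, q1, q0, hq1, hs, hF⟩ := pk_frac a1 b1 hco hP1 (fun t ht => (hga' t ht).2)
  refine ⟨s, ρ, q1, q0, hq1, hs, ?_⟩
  intro t ht
  rw [← hF t ht, hga, hgb, Polynomial.eval_mul, Polynomial.eval_mul,
    mul_div_mul_left _ _ (hga' t ht).1]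

end Pick

theorem pick_convex (a b : Polynomial ℝ)
    (hP : ∀ t : ℂ, 0 < t.im → ((Polynomial.aeval t b) * (starRingEnd ℂ) (Polynomial.aeval t a)).im ≤ 0)
    (ha : ∀ t : ℝ, 0 ≤ t → 0 < a.eval t) (t : ℝ) (ht : 0 ≤ t) :
    b.derivative.eval t * a.eval t - b.eval t * a.derivative.eval t ≤ 0 ∧
    b.eval t / a.eval t - t * ((b.derivative.eval t * a.eval t - b.eval t * a.derivative.eval t) / (a.eval t)^2)
      ≤ b.eval 0 / a.eval 0 := by
  obtain ⟨s, ρ, q1, q0, hq1, hs, hF⟩ := pk_frac' a b hP (fun t ht => (ha t ht).ne')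
  have hder : ∀ t : ℝ, 0 < t →
      (b.derivative.eval t * a.eval t - b.eval t * a.derivative.eval t) / (a.eval t)^2
        = q1 - ∑ y ∈ s, ρ y / (t - y) ^ 2 := by
    intro t ht
    have h1 : HasDerivAt (fun x => b.eval x / a.eval x)
        ((b.derivative.eval t * a.eval t - b.eval t * a.derivative.eval t) / (a.eval t)^2) t :=
      (b.hasDerivAt t).div (a.hasDerivAt t) (ha t ht.le).ne'
    have h2 : HasDerivAt (fun x => q1 * x + q0 + ∑ y ∈ s, ρ y / (x - y))
        (q1 * 1 + 0 + ∑ y ∈ s, (0 * (t - y) - ρ y * 1) / (t - y) ^ 2) t := by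
      apply HasDerivAt.add
      · apply HasDerivAt.add
        · exact (hasDerivAt_id t).const_mul q1
        · exact hasDerivAt_const t q0
      · apply HasDerivAt.fun_sum
        intro y hy
        have hy0 := (hs y hy).1
        exact (hasDerivAt_const t (ρ y)).div ((hasDerivAt_id t).sub_const y) (by simp; linarith)
    have h3 : (fun x => b.eval x / a.eval x) =ᶠ[nhds t] (fun x => q1 * x + q0 + ∑ y ∈ s, ρ y / (x - y)) := by
      filter_upwards [lt_mem_nhds ht] with x hx
      exact hF x hx.le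
    have h4 := (h2.congr_of_eventuallyEq h3).unique h1
    rw [← h4]
    simp only [mul_one, add_zero, zero_mul, zero_sub, neg_div, Finset.sum_neg_distrib]
    ring
  have hneg : ∀ t : ℝ, 0 < t → b.derivative.eval t * a.eval t - b.eval t * a.derivative.eval t ≤ 0 := by
    intro t ht
    have h1 := hder t ht
    have h2 : q1 - ∑ y ∈ s, ρ y / (t - y) ^ 2 ≤ 0 := by
      have : 0 ≤ ∑ y ∈ s, ρ y / (t - y) ^ 2 :=
        Finset.sum_nonneg fun y hy => div_nonneg (hs y hy).2.le (sq_nonneg _)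
      linarith
    rw [← h1] at h2
    have h3 : 0 < (a.eval t) ^ 2 := pow_pos (ha t ht.le) 2
    by_contra hcon
    push Not at hcon
    exact absurd (div_pos hcon h3) (not_lt.2 h2)
  rcases ht.eq_or_lt with h0 | h0
  · subst h0
    refine ⟨?_, by simp⟩
    have hc : Continuous fun t : ℝ => b.derivative.eval t * a.eval t - b.eval t * a.derivative.eval t :=
      (b.derivative.continuous.mul a.continuous).sub (b.continuous.mul a.derivative.continuous)
    have h1 := (hc.tendsto 0).mono_left (nhdsWithin_le_nhds (s := Set.Ioi 0))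
    refine le_of_tendsto h1 ?_
    filter_upwards [self_mem_nhdsWithin] with r hr
    exact hneg r hr
  · refine ⟨hneg t h0, ?_⟩
    rw [hder t h0, hF t ht, hF 0 le_rfl]
    have : ∑ y ∈ s, ρ y / (t - y) + t * ∑ y ∈ s, ρ y / (t - y) ^ 2 ≤ ∑ y ∈ s, ρ y / (0 - y) := by
      rw [Finset.mul_sum, ← Finset.sum_add_distrib]
      apply Finset.sum_le_sum
      intro y hy
      obtain ⟨hy0, hρ⟩ := hs y hy
      have h1 : 0 < t - y := by linarith
      have h2 : 0 < 0 - y := by linarith
      have e : ρ y / (0 - y) - (ρ y / (t - y) + t * (ρ y / (t - y) ^ 2))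
          = ρ y * t ^ 2 / ((0 - y) * (t - y) ^ 2) := by
        field_simp
        ring
      have h3 : 0 ≤ ρ y * t ^ 2 / ((0 - y) * (t - y) ^ 2) := by positivity
      linarith
    nlinarith [this]


end NestConn.MSS
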