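import Mathlib
import Pool.Agent.NestMSS.Defs
set_option autoImplicit false
open MvPolynomial

namespace NestConn.MSS

variable {n : Type*} [Fintype n] [DecidableEq n]

theorem evR_sub (G G' : MvPolynomial (n × n) ℝ) (M : Matrix n n ℝ) :
    evR (G - G') M = evR G M - evR G' M := by simp [evR]

theorem evC_sub (G G' : MvPolynomial (n × n) ℝ) (M : Matrix n n ℂ) :
    evC (G - G') M = evC G M - evC G' M := by simp [evC]



theorem h170_Dd_add (A : Matrix n n ℝ) (G G' : MvPolynomial (n × n) ℝ) :
    Dd A (G + G') = Dd A G + Dd A G' := by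
  unfold Dd
  simp only [map_add, mul_add, Finset.sum_add_distrib]

theorem h170_Dd_C (A : Matrix n n ℝ) (r : ℝ) : Dd A (C r : MvPolynomial (n × n) ℝ) = 0 := by
  unfold Dd
  simp only [pderiv_C, mul_zero, Finset.sum_const_zero]

theorem h170_Dd_mul (A : Matrix n n ℝ) (G G' : MvPolynomial (n × n) ℝ) :
    Dd A (G * G') = Dd A G * G' + G * Dd A G' := by
  unfold Dd
  rw [Finset.sum_mul, Finset.mul_sum, ← Finset.sum_add_distrib]
  refine Finset.sum_congr rfl fun ij _ => ?_
  rw [pderiv_mul]
  ring

theorem h170_Dd_X (A : Matrix n n ℝ) (kl : n × n) :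
    Dd A (X kl : MvPolynomial (n × n) ℝ) = C (A kl.1 kl.2) := by
  classical
  unfold Dd
  rw [Finset.sum_eq_single kl]
  · rw [pderiv_X_self, mul_one]
  · intro ij _ hne
    rw [pderiv_X_of_ne (Ne.symm hne), mul_zero]
  · intro h
    exact absurd (Finset.mem_univ _) h

theorem eval_linR (G : MvPolynomial (n × n) ℝ) (M A : Matrix n n ℝ) (t : ℝ) :
    (linR G M A).eval t = evR G (M + t • A) := by
  unfold linR evR
  induction G using MvPolynomial.induction_on with
  | C r => simp
  | add p q hp hq => rw [map_add, map_add, Polynomial.eval_add, hp, hq]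
  | mul_X p kl hp =>
    rw [map_mul, map_mul, Polynomial.eval_mul, hp, aeval_X, eval_X]
    congr 1
    simp
    ring

theorem eval_linC (G : MvPolynomial (n × n) ℝ) (M : Matrix n n ℂ) (A : Matrix n n ℝ) (t : ℂ) :
    (linC G M A).eval t = evC G (M + t • A.map (fun x => (x : ℂ))) := by
  unfold linC evC
  induction G using MvPolynomial.induction_on with
  | C r =>
    rw [algHom_C, algHom_C]
    simp [Polynomial.algebraMap_apply]
  | add p q hp hq => rw [map_add, map_add, Polynomial.eval_add, hp, hq]
  | mul_X p kl hp =>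
    rw [map_mul, map_mul, Polynomial.eval_mul, hp, aeval_X, aeval_X]
    congr 1
    simp
    ring

theorem aeval_linR (G : MvPolynomial (n × n) ℝ) (M A : Matrix n n ℝ) (t : ℂ) :
    Polynomial.aeval t (linR G M A) = evC G (M.map (fun x => (x : ℂ)) + t • A.map (fun x => (x : ℂ))) := by
  unfold linR evC
  induction G using MvPolynomial.induction_on with
  | C r => simp
  | add p q hp hq => rw [map_add, map_add, map_add, hp, hq]
  | mul_X p kl hp =>
    rw [map_mul, map_mul, map_mul, hp, aeval_X, aeval_X]
    congr 1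
    simp
    ring

theorem derivative_linR (G : MvPolynomial (n × n) ℝ) (M A : Matrix n n ℝ) :
    (linR G M A).derivative = linR (Dd A G) M A := by
  induction G using MvPolynomial.induction_on with
  | C r =>
    rw [h170_Dd_C]
    unfold linR
    rw [map_zero, algHom_C]
    simp [Polynomial.algebraMap_apply]
  | add p q hp hq =>
    rw [h170_Dd_add]
    unfold linR at *
    rw [map_add, map_add, hp, hq, map_add]
  | mul_X p kl hp =>
    rw [h170_Dd_mul, h170_Dd_X]
    unfold linR at *
    rw [map_mul, Polynomial.derivative_mul, hp, map_add, map_mul, map_mul, aeval_X, algHom_C]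
    simp [Polynomial.algebraMap_apply]

theorem derivative_linC (G : MvPolynomial (n × n) ℝ) (M : Matrix n n ℂ) (A : Matrix n n ℝ) :
    (linC G M A).derivative = linC (Dd A G) M A := by
  induction G using MvPolynomial.induction_on with
  | C r =>
    rw [h170_Dd_C]
    unfold linC
    rw [map_zero, algHom_C]
    simp [Polynomial.algebraMap_apply]
  | add p q hp hq =>
    rw [h170_Dd_add]
    unfold linC at *
    rw [map_add, map_add, hp, hq, map_add]
  | mul_X p kl hp =>
    rw [h170_Dd_mul, h170_Dd_X]
    unfold linC at *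
    rw [map_mul, Polynomial.derivative_mul, hp, map_add, map_mul, map_mul, aeval_X, algHom_C]
    simp [Polynomial.algebraMap_apply]

theorem Dd_comm (A B : Matrix n n ℝ) (G : MvPolynomial (n × n) ℝ) : Dd A (Dd B G) = Dd B (Dd A G) := by
  induction G using MvPolynomial.induction_on with
  | C r => 
    have h0 : ∀ A : Matrix n n ℝ, Dd A (0 : MvPolynomial (n × n) ℝ) = 0 := by
      intro A; unfold Dd; simp
    rw [h170_Dd_C, h170_Dd_C, h0, h0]
  | add p q hp hq => rw [h170_Dd_add, h170_Dd_add, h170_Dd_add, h170_Dd_add, hp, hq]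
  | mul_X p kl hp =>
    simp only [h170_Dd_mul, h170_Dd_X, h170_Dd_add, h170_Dd_C, hp]
    ring

theorem Dd_sub (A : Matrix n n ℝ) (G G' : MvPolynomial (n × n) ℝ) : Dd A (G - G') = Dd A G - Dd A G' := by
  unfold Dd
  simp only [map_sub, mul_sub, Finset.sum_sub_distrib]

theorem Dd_add_dir (A B : Matrix n n ℝ) (G : MvPolynomial (n × n) ℝ) :
    Dd (A + B) G = Dd A G + Dd B G := by
  unfold Dd
  simp only [Matrix.add_apply, map_add, add_mul, Finset.sum_add_distrib]

theorem Dd_smul_dir (c : ℝ) (A : Matrix n n ℝ) (G : MvPolynomial (n × n) ℝ) :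
    Dd (c • A) G = C c * Dd A G := by
  unfold Dd
  rw [Finset.mul_sum]
  refine Finset.sum_congr rfl fun ij _ => ?_
  rw [Matrix.smul_apply, smul_eq_mul, map_mul, mul_assoc]

theorem evC_ofReal (G : MvPolynomial (n × n) ℝ) (M : Matrix n n ℝ) :
    evC G (M.map (fun x => (x : ℂ))) = ((evR G M : ℝ) : ℂ) := by
  unfold evR evC
  induction G using MvPolynomial.induction_on with
  | C r => simp
  | add p q hp hq => rw [map_add, map_add, hp, hq]; push_cast; rfl
  | mul_X p kl hp =>
    rw [map_mul, map_mul, hp, aeval_X, eval_X]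
    push_cast
    rfl

theorem evR_detP (M : Matrix n n ℝ) : evR (detP n) M = M.det := by
  unfold evR detP
  rw [RingHom.map_det]
  congr 1
  ext i j
  simp

theorem evC_detP (M : Matrix n n ℂ) : evC (detP n) M = M.det := by
  unfold evC detP
  rw [AlgHom.map_det]
  congr 1
  ext i j
  simp

/-- `FF` does not depend on the order -/
theorem FF_perm {l l' : List (Matrix n n ℝ)} (h : l.Perm l') : FF l = FF l' := by
  induction h with
  | nil => rfl
  | cons A _ ih =>
    show FF _ - Dd A (FF _) = FF _ - Dd A (FF _)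
    rw [ih]
  | swap A B l =>
    show (FF l - Dd A (FF l)) - Dd B (FF l - Dd A (FF l)) = (FF l - Dd B (FF l)) - Dd A (FF l - Dd B (FF l))
    rw [Dd_sub, Dd_sub, Dd_comm A B]
    ring
  | trans _ _ ih1 ih2 => rw [ih1, ih2]


end NestConn.MSS
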