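import Mathlib
import Pool.Agent.NestMSS.Formal
set_option autoImplicit false
open MvPolynomial

namespace NestConn.MSS

variable {n : Type*} [Fintype n] [DecidableEq n]



theorem tdeg_pderiv {σ : Type*} (i : σ) (G : MvPolynomial σ ℝ) (d : ℕ) (h : G.totalDegree ≤ d) :
    (pderiv i G).totalDegree ≤ d - 1 := by
  classical
  conv_lhs => rw [← support_sum_monomial_coeff G]
  rw [map_sum]
  apply totalDegree_finsetSum_le
  intro s hs
  rw [pderiv_monomial]
  by_cases h0 : s i = 0
  · rw [h0]; simp
  · refine (totalDegree_monomial_le _ _).trans ?_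
    have h1 : s = (s - Finsupp.single i 1) + Finsupp.single i 1 := by
      rw [tsub_add_cancel_of_le]
      rw [Finsupp.single_le_iff]
      omega
    have h2 : (s.sum fun _ e => e) ≤ d := (le_totalDegree hs).trans h
    have h3 : (s.sum fun _ e => e) = ((s - Finsupp.single i 1).sum fun _ e => e) + 1 := by
      conv_lhs => rw [h1]
      rw [Finsupp.sum_add_index' (fun _ => rfl) (fun _ _ _ => rfl)]
      congr 1
      exact Finsupp.sum_single_index rfl
    have h4 : ((s - Finsupp.single i 1).sum fun _ ↦ id) =
        ((s - Finsupp.single i 1).sum fun _ e => e) := rfl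
    rw [h4]
    omega

theorem tdeg_Dd (A : Matrix n n ℝ) (G : MvPolynomial (n × n) ℝ) (d : ℕ) (h : G.totalDegree ≤ d) :
    (Dd A G).totalDegree ≤ d - 1 := by
  unfold Dd
  apply totalDegree_finsetSum_le
  intro ij _
  refine (totalDegree_mul _ _).trans ?_
  rw [totalDegree_C, zero_add]
  exact tdeg_pderiv ij G d h

theorem tdeg_detP : (detP n).totalDegree ≤ Fintype.card n := by
  unfold detP
  rw [Matrix.det_apply]
  apply totalDegree_finsetSum_le
  intro σ _
  have h1 : (∏ i, (Matrix.of fun i j => (X (i, j) : MvPolynomial (n × n) ℝ)) (σ i) i).totalDegree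
      ≤ Fintype.card n := by
    refine (totalDegree_finsetProd _ _).trans ?_
    refine (Finset.sum_le_card_nsmul _ _ 1 ?_).trans ?_
    · intro i _
      simp
    · simp
  rcases Int.units_eq_one_or (Equiv.Perm.sign σ) with h | h
  · rw [h, one_smul]; exact h1
  · rw [h, Units.neg_smul, one_smul, totalDegree_neg]; exact h1

theorem FF_decomp (l : List (Matrix n n ℝ)) :
    ∃ R : MvPolynomial (n × n) ℝ, FF l = detP n + R ∧ R.totalDegree ≤ Fintype.card n - 1 ∧
      (Fintype.card n = 0 → R = 0) := by
  induction l with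
  | nil => exact ⟨0, by simp [FF], by simp, fun _ => rfl⟩
  | cons A l ih =>
    obtain ⟨R, h1, h2, h3⟩ := ih
    refine ⟨R - Dd A (detP n + R), ?_, ?_, ?_⟩
    · show FF l - Dd A (FF l) = _
      rw [h1]; ring
    · rw [sub_eq_add_neg]
      refine (totalDegree_add _ _).trans (max_le h2 ?_)
      rw [totalDegree_neg]
      apply tdeg_Dd
      refine (totalDegree_add _ _).trans (max_le tdeg_detP (h2.trans (Nat.sub_le _ _)))
    · intro h0
      rw [h3 h0]
      have : IsEmpty n := Fintype.card_eq_zero_iff.mp h0
      simp [Dd]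

theorem natDegree_linR (G : MvPolynomial (n × n) ℝ) (M A : Matrix n n ℝ) (d : ℕ)
    (h : G.totalDegree ≤ d) : (linR G M A).natDegree ≤ d := by
  unfold linR
  have := MvPolynomial.aeval_natDegree_le (n := 1) G h
    (fun ij : n × n => Polynomial.C (M ij.1 ij.2) + Polynomial.X * Polynomial.C (A ij.1 ij.2)) (by
      intro ij
      refine (Polynomial.natDegree_add_le _ _).trans (max_le (by simp) ?_)
      refine Polynomial.natDegree_mul_le.trans ?_
      simp)
  rwa [mul_one] at this

theorem linR_detP (M : Matrix n n ℝ) : linR (detP n) M 1 = (-M).charpoly := by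
  unfold linR detP Matrix.charpoly
  rw [AlgHom.map_det]
  congr 1
  ext1 i j
  simp only [AlgHom.mapMatrix_apply, Matrix.map_apply, Matrix.of_apply, aeval_X,
    Matrix.charmatrix_apply, Matrix.neg_apply, map_neg, sub_neg_eq_add]
  by_cases h : i = j
  · subst h; simp [add_comm]
  · simp [h]

theorem linR_add (G G' : MvPolynomial (n × n) ℝ) (M A : Matrix n n ℝ) :
    linR (G + G') M A = linR G M A + linR G' M A := by simp [linR]

open Filter Topology in
/-- growth along `M + x I` -/
theorem growth (l : List (Matrix n n ℝ)) (M B : Matrix n n ℝ) :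
    (∃ x₀ : ℝ, ∀ x ≥ x₀, 0 < evR (FF l) (M + x • (1 : Matrix n n ℝ))) ∧
    Tendsto (fun x : ℝ => evR (Dd B (FF l)) (M + x • (1 : Matrix n n ℝ)) /
      evR (FF l) (M + x • (1 : Matrix n n ℝ))) atTop (𝓝 0) := by
  obtain ⟨R, h1, h2, h3⟩ := FF_decomp l
  set p := linR (FF l) M 1 with hp
  set q := linR (Dd B (FF l)) M 1 with hq
  have hpev : ∀ x : ℝ, evR (FF l) (M + x • (1 : Matrix n n ℝ)) = p.eval x := fun x =>
    (eval_linR _ _ _ _).symm
  have hqev : ∀ x : ℝ, evR (Dd B (FF l)) (M + x • (1 : Matrix n n ℝ)) = q.eval x := fun x =>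
    (eval_linR _ _ _ _).symm
  simp_rw [hpev, hqev]
  have hpdec : p = (-M).charpoly + linR R M 1 := by
    rw [hp, h1, linR_add, linR_detP]
  rcases Nat.eq_zero_or_pos (Fintype.card n) with h0 | h0
  · have : IsEmpty n := Fintype.card_eq_zero_iff.mp h0
    have hp1 : p = 1 := by
      rw [hpdec, h3 h0]
      simp [linR, Matrix.charpoly]
    have hq0 : q = 0 := by
      rw [hq]
      simp [Dd, linR]
    rw [hp1, hq0]
    simp
  · have hRdeg : (linR R M 1).natDegree ≤ Fintype.card n - 1 := natDegree_linR R M 1 _ h2
    have hchar : ((-M).charpoly).natDegree = Fintype.card n := Matrix.charpoly_natDegree_eq_dim _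
    have hRlt : (linR R M 1).degree < ((-M).charpoly).degree := by
      apply Polynomial.degree_lt_degree
      omega
    have hmonic : p.Monic := by
      rw [hpdec]
      exact (Matrix.charpoly_monic (-M)).add_of_left hRlt
    have hpdeg : p.degree = ((-M).charpoly).degree := by
      rw [hpdec]; exact Polynomial.degree_add_eq_left_of_degree_lt hRlt
    have hpnat : p.natDegree = Fintype.card n := by
      rw [← hchar]; exact Polynomial.natDegree_eq_of_degree_eq hpdeg
    have hFdeg : (FF l).totalDegree ≤ Fintype.card n := by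
      rw [h1]
      exact (totalDegree_add _ _).trans (max_le tdeg_detP (h2.trans (Nat.sub_le _ _)))
    have hqnat : q.natDegree ≤ Fintype.card n - 1 := natDegree_linR _ M 1 _ (tdeg_Dd B _ _ hFdeg)
    constructor
    · have ht : Tendsto (fun x => p.eval x) atTop atTop := by
        apply Polynomial.tendsto_atTop_of_leadingCoeff_nonneg
        · rw [← Polynomial.natDegree_pos_iff_degree_pos, hpnat]; exact h0
        · rw [hmonic.leadingCoeff]; exact zero_le_one
      exact (Filter.eventually_atTop.mp (ht.eventually_gt_atTop 0))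
    · apply Polynomial.div_tendsto_atTop_zero_of_degree_lt
      apply Polynomial.degree_lt_degree
      omega


end NestConn.MSS
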