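import Mathlib
import Pool.Agent.NestMSS.Barrier
import Pool.Agent.NestMSS.Growth
set_option autoImplicit false
open MvPolynomial

namespace NestConn.MSS

variable {n : Type*} [Fintype n] [DecidableEq n]



theorem evR_Dd_avg (G : MvPolynomial (n × n) ℝ) {α : Type*} [Fintype α]
    (B : α → Matrix n n ℝ) (c : ℝ) (M : Matrix n n ℝ) :
    evR (Dd (c • ∑ a, B a) G) M = c * ∑ a, evR (Dd (B a) G) M := by
  rw [Dd_smul_dir]
  have h : ∀ s : Finset α, Dd (∑ a ∈ s, B a) G = ∑ a ∈ s, Dd (B a) G := by
    intro s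
    classical
    induction s using Finset.induction_on with
    | empty => simp [Dd]
    | insert a s ha ih => rw [Finset.sum_insert ha, Finset.sum_insert ha, Dd_add_dir, ih]
  rw [h]
  simp [evR]

theorem continuous_evR_line (G : MvPolynomial (n × n) ℝ) (M A : Matrix n n ℝ) :
    Continuous (fun x : ℝ => evR G (M + x • A)) := by
  have : (fun x : ℝ => evR G (M + x • A)) = fun x => (linR G M A).eval x := by
    funext x
    rw [eval_linR]
  rw [this]
  exact (linR G M A).continuous

open Filter Topology in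
theorem above_of_sub (l : List (Matrix n n ℝ)) (hl : ∀ A ∈ l, A.PosSemidef)
    (B₀ : Matrix n n ℝ) (hB₀ : B₀.PosSemidef) (M : Matrix n n ℝ) (hM : M.IsSymm)
    (hab : Above (FF l - Dd B₀ (FF l)) M) : Above (FF l) M := by
  intro N hN
  set M' := M + N with hM'
  have hNs : N.IsSymm := by
    have := hN.isHermitian
    rw [Matrix.IsHermitian, Matrix.conjTranspose_eq_transpose_of_trivial] at this
    exact this
  have hM's : M'.IsSymm := hM.add hNs
  obtain ⟨⟨x₀, hx₀⟩, hlim⟩ := growth l M' B₀
  by_contra hcon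
  have hcon' : evR (FF l) (M' + (0:ℝ) • 1) ≤ 0 := by
    simpa using hcon
  set g : ℝ → ℝ := fun x => evR (FF l) (M' + x • (1 : Matrix n n ℝ)) with hg
  set h : ℝ → ℝ := fun x => evR (Dd B₀ (FF l)) (M' + x • (1 : Matrix n n ℝ)) with hh
  have hgc : Continuous g := continuous_evR_line _ _ _
  have hhc : Continuous h := continuous_evR_line _ _ _
  set S : Set ℝ := {x | 0 ≤ x ∧ g x ≤ 0} with hS
  have hSne : S.Nonempty := ⟨0, le_refl _, hcon'⟩
  have hSbdd : BddAbove S := by
    refine ⟨x₀, ?_⟩
    rintro x ⟨_, hx⟩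
    by_contra hlt
    exact absurd (hx₀ x (by linarith)) (not_lt.2 hx)
  have hScl : IsClosed S := by
    apply IsClosed.inter (isClosed_le continuous_const continuous_id)
    exact isClosed_le hgc continuous_const
  set lam := sSup S with hlam
  have hlamS : lam ∈ S := hScl.csSup_mem hSne hSbdd
  have hpos : ∀ x, lam < x → 0 < g x := by
    intro x hx
    by_contra hle
    have : x ∈ S := ⟨by linarith [hlamS.1], not_lt.1 hle⟩
    exact absurd (le_csSup hSbdd this) (not_le.2 hx)
  have hhn : ∀ x, lam < x → 0 ≤ h x := by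
    intro x hx
    have hF : ∀ t : ℝ, 0 ≤ t → h (x + t) / g (x + t) ≤ h x / g x := by
      intro t ht
      have hsx : (M' + x • (1 : Matrix n n ℝ)).IsSymm := by
        apply hM's.add
        exact (Matrix.isSymm_one).smul x
      have e1 : ∀ t : ℝ, (linR (FF l) (M' + x • (1 : Matrix n n ℝ)) 1).eval t = g (x + t) := by
        intro t
        rw [eval_linR, hg]
        simp only [add_smul, add_assoc]
      have e2 : ∀ t : ℝ, (linR (Dd B₀ (FF l)) (M' + x • (1 : Matrix n n ℝ)) 1).eval t =
          h (x + t) := by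
        intro t
        rw [eval_linR, hh]
        simp only [add_smul, add_assoc]
      have hp := pick_convex (linR (FF l) (M' + x • (1 : Matrix n n ℝ)) 1)
        (linR (Dd B₀ (FF l)) (M' + x • (1 : Matrix n n ℝ)) 1)
        (fun t ht => Stab_pick (FF l) (Stab_FF l hl) _ 1 B₀ hsx Matrix.PosSemidef.one hB₀ t ht)
        (fun t ht => by
          rw [e1]
          exact hpos _ (by linarith)) t ht
      obtain ⟨h1, h2⟩ := hp
      rw [e1, e2, e1, e2, add_zero] at h2
      rw [e1, e2] at h1
      have h3 : t * (((linR (Dd B₀ (FF l)) (M' + x • (1 : Matrix n n ℝ)) 1).derivative.eval t *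
          g (x + t) - h (x + t) *
          (linR (FF l) (M' + x • (1 : Matrix n n ℝ)) 1).derivative.eval t) / (g (x + t))^2) ≤ 0 := by
        apply mul_nonpos_of_nonneg_of_nonpos ht
        exact div_nonpos_of_nonpos_of_nonneg h1 (sq_nonneg _)
      linarith
    have hlim2 : Tendsto (fun t : ℝ => h (x + t) / g (x + t)) atTop (𝓝 0) := by
      have ht : Tendsto (fun t : ℝ => x + t) atTop atTop := tendsto_atTop_add_const_left _ _ tendsto_id
      exact hlim.comp ht
    have h0 : 0 ≤ h x / g x := by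
      apply le_of_tendsto hlim2
      filter_upwards [eventually_ge_atTop (0:ℝ)] with t ht
      exact hF t ht
    have hgx := hpos x hx
    by_contra hneg
    exact absurd (div_neg_of_neg_of_pos (not_le.1 hneg) hgx) (not_lt.2 h0)
  have hhlam : 0 ≤ h lam := by
    have hcl : IsClosed {x | 0 ≤ h x} := isClosed_le continuous_const hhc
    have : lam ∈ closure (Set.Ioi lam) := by
      rw [closure_Ioi]
      exact Set.self_mem_Ici
    exact closure_minimal (fun x hx => hhn x hx) hcl this
  have hfin := hab (N + lam • (1 : Matrix n n ℝ))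
    (hN.add (Matrix.PosSemidef.one.smul hlamS.1))
  rw [evR_sub, ← add_assoc, ← hM'] at hfin
  have h1 : g lam ≤ 0 := hlamS.2
  simp only [hg] at h1
  simp only [hh] at hhlam
  linarith

theorem choose_step (l : List (Matrix n n ℝ)) (hl : ∀ A ∈ l, A.PosSemidef)
    {α : Type*} [Fintype α] [Nonempty α] (B : α → Matrix n n ℝ) (hB : ∀ a, (B a).PosSemidef)
    (M : Matrix n n ℝ) (hM : M.IsSymm)
    (hab : Above (FF (((Fintype.card α : ℝ)⁻¹ • ∑ a, B a) :: l)) M) :
    ∃ a, Above (FF (B a :: l)) M := by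
  have hc : (0:ℝ) < Fintype.card α := by exact_mod_cast Fintype.card_pos
  have hB₀ : ((Fintype.card α : ℝ)⁻¹ • ∑ a, B a).PosSemidef := by
    apply Matrix.PosSemidef.smul _ (by positivity)
    exact Matrix.posSemidef_sum _ (fun a _ => hB a)
  have hab' : Above (FF l - Dd ((Fintype.card α : ℝ)⁻¹ • ∑ a, B a) (FF l)) M := hab
  have hG : Above (FF l) M := above_of_sub l hl _ hB₀ M hM hab'
  have h0 := hab' 0 Matrix.PosSemidef.zero
  rw [evR_sub, add_zero, evR_Dd_avg] at h0
  have h1 : ∃ a, evR (Dd (B a) (FF l)) M < evR (FF l) M := by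
    by_contra hcon
    push Not at hcon
    have h2 : (Fintype.card α : ℝ) * evR (FF l) M ≤ ∑ a, evR (Dd (B a) (FF l)) M := by
      have := Finset.sum_le_sum (s := Finset.univ) (fun a _ => hcon a)
      simpa using this
    have h3 : evR (FF l) M ≤ (Fintype.card α : ℝ)⁻¹ * ∑ a, evR (Dd (B a) (FF l)) M := by
      rw [inv_mul_eq_div, le_div_iff₀ hc]
      linarith
    linarith
  obtain ⟨a, ha⟩ := h1
  refine ⟨a, ?_⟩
  intro N hN
  show 0 < evR (FF l - Dd (B a) (FF l)) (M + N)
  rw [evR_sub]
  have h4 := Phi_mono (FF l) (Stab_FF l hl) M N (B a) hM hN (hB a) hG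
  have h5 : 0 < evR (FF l) (M + N) := hG N hN
  have h6 : 0 < evR (FF l) M := by simpa using hG 0 Matrix.PosSemidef.zero
  have h7 : evR (Dd (B a) (FF l)) M / evR (FF l) M < 1 := by
    rw [div_lt_one h6]; exact ha
  have h8 : evR (Dd (B a) (FF l)) (M + N) / evR (FF l) (M + N) < 1 := lt_of_le_of_lt h4 h7
  rw [div_lt_one h5] at h8
  linarith

theorem psd_vv (w : n → ℝ) : (Matrix.vecMulVec w w).PosSemidef := by
  have := Matrix.posSemidef_vecMulVec_self_star w
  simpa using this

theorem psd_avg {α : Type*} [Fintype α] (w : α → n → ℝ) :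
    ((Fintype.card α : ℝ)⁻¹ • ∑ a, Matrix.vecMulVec (w a) (w a)).PosSemidef := by
  apply Matrix.PosSemidef.smul _ (by positivity)
  exact Matrix.posSemidef_sum _ (fun a _ => psd_vv _)

theorem choose_list {J : Type*} [DecidableEq J] {α : Type*} [Fintype α] [Nonempty α]
    (v : J → α → n → ℝ) (M : Matrix n n ℝ) (hM : M.IsSymm) (L : List J) (hL : L.Nodup) :
    ∀ l₀ : List (Matrix n n ℝ), (∀ A ∈ l₀, A.PosSemidef) →
    Above (FF ((L.map fun j =>
      (Fintype.card α : ℝ)⁻¹ • ∑ a, Matrix.vecMulVec (v j a) (v j a)) ++ l₀)) M →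
    ∃ c : J → α, Above (FF ((L.map fun j =>
      Matrix.vecMulVec (v j (c j)) (v j (c j))) ++ l₀)) M := by
  induction L with
  | nil =>
    intro l₀ _ h
    exact ⟨fun _ => Classical.arbitrary α, h⟩
  | cons j L ih =>
    intro l₀ hl₀ h
    rw [List.nodup_cons] at hL
    have hpsd : ∀ A ∈ (L.map fun j =>
        (Fintype.card α : ℝ)⁻¹ • ∑ a, Matrix.vecMulVec (v j a) (v j a)) ++ l₀, A.PosSemidef := by
      intro A hA
      rw [List.mem_append] at hA
      rcases hA with hA | hA
      · obtain ⟨j', _, rfl⟩ := List.mem_map.1 hA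
        exact psd_avg _
      · exact hl₀ A hA
    rw [List.map_cons, List.cons_append] at h
    obtain ⟨a, ha⟩ := choose_step _ hpsd (fun a => Matrix.vecMulVec (v j a) (v j a))
      (fun a => psd_vv _) M hM h
    have hperm : FF (Matrix.vecMulVec (v j a) (v j a) :: ((L.map fun j =>
        (Fintype.card α : ℝ)⁻¹ • ∑ a, Matrix.vecMulVec (v j a) (v j a)) ++ l₀)) =
        FF ((L.map fun j =>
        (Fintype.card α : ℝ)⁻¹ • ∑ a, Matrix.vecMulVec (v j a) (v j a)) ++
          (Matrix.vecMulVec (v j a) (v j a) :: l₀)) := by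
      apply FF_perm
      exact (List.perm_middle).symm
    rw [hperm] at ha
    obtain ⟨c, hc⟩ := ih hL.2 (Matrix.vecMulVec (v j a) (v j a) :: l₀) (by
      intro A hA
      rw [List.mem_cons] at hA
      rcases hA with rfl | hA
      · exact psd_vv _
      · exact hl₀ A hA) ha
    refine ⟨Function.update c j a, ?_⟩
    have hmap : (L.map fun j' => Matrix.vecMulVec (v j' (Function.update c j a j'))
        (v j' (Function.update c j a j'))) =
        L.map fun j' => Matrix.vecMulVec (v j' (c j')) (v j' (c j')) := by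
      apply List.map_congr_left
      intro j' hj'
      have : j' ≠ j := by rintro rfl; exact hL.1 hj'
      rw [Function.update_of_ne this]
    rw [List.map_cons, hmap, List.cons_append, Function.update_self]
    have hperm2 : FF (Matrix.vecMulVec (v j a) (v j a) :: ((L.map fun j =>
        Matrix.vecMulVec (v j (c j)) (v j (c j))) ++ l₀)) =
        FF ((L.map fun j => Matrix.vecMulVec (v j (c j)) (v j (c j))) ++
          (Matrix.vecMulVec (v j a) (v j a) :: l₀)) := by
      apply FF_perm
      exact (List.perm_middle).symm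
    rw [hperm2]
    exact hc

/-- iterate -/
theorem choose_all {J : Type*} [Fintype J] [DecidableEq J] {α : Type*} [Fintype α] [Nonempty α]
    (v : J → α → n → ℝ) (M : Matrix n n ℝ) (hM : M.IsSymm)
    (hab : Above (FF ((Finset.univ.toList : List J).map fun j =>
      (Fintype.card α : ℝ)⁻¹ • ∑ a, Matrix.vecMulVec (v j a) (v j a))) M) :
    ∃ c : J → α, Above (FF ((Finset.univ.toList : List J).map fun j =>
      Matrix.vecMulVec (v j (c j)) (v j (c j)))) M := by
  have h := choose_list v M hM (Finset.univ.toList : List J) (Finset.nodup_toList _) []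
    (by simp) (by simpa using hab)
  simpa using h

theorem mss {J : Type*} [Fintype J] [DecidableEq J] {α : Type*} [Fintype α] [Nonempty α]
    (v : J → α → n → ℝ) (ε : ℝ) (hε : 0 < ε)
    (hsum : ∑ j, (Fintype.card α : ℝ)⁻¹ • ∑ a, Matrix.vecMulVec (v j a) (v j a) = 1)
    (hsmall : ∀ j, (Fintype.card α : ℝ)⁻¹ * ∑ a, ∑ i, v j a i ^ 2 ≤ ε) :
    ∃ c : J → α, ∀ x : n → ℝ,
      ∑ j, (∑ i, v j (c j) i * x i) ^ 2 ≤ (1 + Real.sqrt ε) ^ 2 * ∑ i, x i ^ 2 := by
  set s := Real.sqrt ε with hs
  have hs0 : 0 < s := Real.sqrt_pos.2 hε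
  have hss : s ^ 2 = ε := Real.sq_sqrt hε.le
  set l : List (Matrix n n ℝ) := (Finset.univ.toList : List J).map fun j =>
      (Fintype.card α : ℝ)⁻¹ • ∑ a, Matrix.vecMulVec (v j a) (v j a) with hl
  have hlsum : l.sum = 1 := by
    rw [hl, Finset.sum_map_toList]
    exact hsum
  have hb := barrier l (by
    intro A hA
    obtain ⟨j, _, rfl⟩ := List.mem_map.1 hA
    exact psd_avg _) ε (s + ε) (1 + s) hε.le (by positivity) (by positivity) (by
    intro A hA
    obtain ⟨j, _, rfl⟩ := List.mem_map.1 hA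
    rw [Matrix.trace_smul, Matrix.trace_sum]
    have : ∀ a, (Matrix.vecMulVec (v j a) (v j a)).trace = ∑ i, v j a i ^ 2 := by
      intro a
      simp [Matrix.trace, Matrix.vecMulVec_apply, sq]
    simp only [this, smul_eq_mul]
    exact hsmall j) (by
    rw [← hss]
    apply le_of_eq
    field_simp
    ring)
  rw [hlsum] at hb
  have hM : ((s + ε) • (1 : Matrix n n ℝ) + (1 + s) • (1 : Matrix n n ℝ)).IsSymm :=
    (Matrix.isSymm_one.smul _).add (Matrix.isSymm_one.smul _)
  obtain ⟨c, hc⟩ := choose_all v _ hM hb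
  refine ⟨c, ?_⟩
  set Sg : Matrix n n ℝ := ∑ j, Matrix.vecMulVec (v j (c j)) (v j (c j)) with hSg
  have hSgpsd : Sg.PosSemidef := Matrix.posSemidef_sum _ (fun a _ => psd_vv _)
  set K : Matrix n n ℝ := (1 + s) ^ 2 • (1 : Matrix n n ℝ) - Sg with hK
  have hKh : K.IsHermitian := by
    apply Matrix.IsHermitian.sub _ hSgpsd.isHermitian
    rw [Matrix.IsHermitian, Matrix.conjTranspose_smul, Matrix.conjTranspose_one]
    simp
  have hdet : ∀ r : ℝ, 0 ≤ r → 0 < (K + r • (1 : Matrix n n ℝ)).det := by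
    intro r hr
    have h1 := hc (r • (1 : Matrix n n ℝ)) (Matrix.PosSemidef.one.smul hr)
    have h2 : ((Finset.univ.toList : List J).map fun j =>
      Matrix.vecMulVec (v j (c j)) (v j (c j))) =
      (((Finset.univ.toList : List J).map fun j => v j (c j)).map
        fun w => Matrix.vecMulVec w w) := by
      rw [List.map_map]; rfl
    rw [h2, evR_FF_rankOne, ← h2, Finset.sum_map_toList] at h1
    have h3 : (s + ε) • (1 : Matrix n n ℝ) + (1 + s) • (1 : Matrix n n ℝ) +
        r • (1 : Matrix n n ℝ) - ∑ j, Matrix.vecMulVec (v j (c j)) (v j (c j)) =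
        K + r • (1 : Matrix n n ℝ) := by
      rw [hK, ← hSg, ← add_smul]
      have : s + ε + (1 + s) = (1 + s) ^ 2 := by rw [← hss]; ring
      rw [this]
      abel
    rw [h3] at h1
    exact h1
  have hKpsd : K.PosSemidef := by
    rw [hKh.posSemidef_iff_eigenvalues_nonneg]
    intro i
    by_contra hneg
    have hneg' : hKh.eigenvalues i < 0 := not_le.1 hneg
    have h1 := hdet (-hKh.eigenvalues i) (by linarith)
    have h2 : (K + (-hKh.eigenvalues i) • (1 : Matrix n n ℝ)).mulVec
        (WithLp.ofLp (hKh.eigenvectorBasis i)) = 0 := by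
      rw [Matrix.add_mulVec, hKh.mulVec_eigenvectorBasis, Matrix.smul_mulVec, Matrix.one_mulVec]
      simp
    have h3 : (WithLp.ofLp (hKh.eigenvectorBasis i)) ≠ 0 := by
      intro h0
      have h4 : hKh.eigenvectorBasis i = 0 := by
        ext k
        exact congrFun h0 k
      have h5 := hKh.eigenvectorBasis.orthonormal.1 i
      rw [h4] at h5
      simp at h5
    have h6 := Matrix.exists_mulVec_eq_zero_iff.1 ⟨_, h3, h2⟩
    linarith
  intro x
  have hq := hKpsd.dotProduct_mulVec_nonneg x
  rw [hK, Matrix.sub_mulVec, dotProduct_sub] at hq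
  have e1 : star x ⬝ᵥ ((1 + s) ^ 2 • (1 : Matrix n n ℝ)).mulVec x =
      (1 + s) ^ 2 * ∑ i, x i ^ 2 := by
    rw [Matrix.smul_mulVec, Matrix.one_mulVec, dotProduct_smul]
    simp [dotProduct, sq]
  have e2 : star x ⬝ᵥ Sg.mulVec x = ∑ j, (∑ i, v j (c j) i * x i) ^ 2 := by
    rw [hSg, Matrix.sum_mulVec, dotProduct_sum]
    apply Finset.sum_congr rfl
    intro j _
    rw [Matrix.vecMulVec_mulVec]
    have e3 : star x ⬝ᵥ v j (c j) = ∑ i, v j (c j) i * x i := by
      simp only [dotProduct, Pi.star_apply, star_trivial]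
      apply Finset.sum_congr rfl
      intro i _
      ring
    have e4 : v j (c j) ⬝ᵥ x = ∑ i, v j (c j) i * x i := rfl
    rw [dotProduct_smul, e3, e4]
    simp [sq]
  rw [e1, e2] at hq
  linarith


end NestConn.MSS
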